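import Mathlib
import Pool.Agent.H86.SeqCard2
import Pool.Agent.H86.FUGroup

set_option autoImplicit false

namespace Pool.Agent.Results.MP_2f4f34_gt.RankOmegaOne

open Set Filter Topology Cardinal

/-- the bounding number: the least size of a family of integer sequences that is not eventually
dominated by a single sequence -/
noncomputable def boundingNumber : Cardinal :=
  sInf {c | ∃ F : Set (ℕ → ℕ), #F = c ∧ ¬ ∃ g : ℕ → ℕ, ∀ f ∈ F, ∀ᶠ n in atTop, f n ≤ g n}

/-- `t` is the finest Hausdorff group topology in which all members of `S` converge to `1` -/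
def Generates {G : Type} [Group G] (S : Set (ℕ → G)) (t : TopologicalSpace G) : Prop :=
  IsLeast {s : TopologicalSpace G | @IsTopologicalGroup G s _ ∧ @T2Space G s ∧
    ∀ u ∈ S, Tendsto u atTop (@nhds G s 1)} t

/-- `t` is a Hausdorff Frechet-Urysohn group topology whose sequence rank `r_s` is `ℵ₁` -/
def FURankAlephOne (G : Type) [Group G] (t : TopologicalSpace G) : Prop :=
  @IsTopologicalGroup G t _ ∧ @T2Space G t ∧ @FrechetUrysohnSpace G t ∧
    IsLeast {c : Cardinal | ∃ S : Set (ℕ → G), Generates S t ∧ #S = c} (aleph 1)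

theorem b_mem : boundingNumber ∈ {c | ∃ F : Set (ℕ → ℕ), #F = c ∧
    ¬ ∃ g : ℕ → ℕ, ∀ f ∈ F, ∀ᶠ n in atTop, f n ≤ g n} :=
  csInf_mem ⟨_, univ, rfl, H86.SeqCard.unbdd_univ⟩

theorem aleph0_lt_b : ℵ₀ < boundingNumber := by
  obtain ⟨F, hF, hF'⟩ := b_mem
  by_contra h
  rw [not_lt, ← hF, le_aleph0_iff_set_countable] at h
  exact H86.SeqCard.not_unbdd_of_countable h hF'

theorem b_le (G : Type) [Group G] [τ : TopologicalSpace G] [IsTopologicalGroup G] [Countable G]
    [T2Space G] [FrechetUrysohnSpace G] (hnd : ¬ DiscreteTopology G) (S : Set (ℕ → G))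
    (hS : Generates S τ) : boundingNumber ≤ #S := by
  by_contra hlt
  rw [not_le] at hlt
  obtain ⟨T, hT, hT'⟩ := H86.SeqCard.lower_fu hnd (fun u : S => u.1) (fun u => hS.1.2.2 u u.2) (by
    intro f hf
    have h1 : boundingNumber ≤ #(range f) := csInf_le' ⟨_, rfl, hf⟩
    refine (h1.trans mk_range_le).not_gt ?_
    rw [mk_prod, lift_id, lift_id]
    exact mul_lt_of_lt aleph0_lt_b.le hlt (mk_le_aleph0.trans_lt aleph0_lt_b))
  refine hT' (le_trans (hS.2 (show T.toTopologicalSpace ⊓ τ ∈ _ from ⟨?_, ?_, fun u hu => ?_⟩))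
    inf_le_left)
  · exact topologicalGroup_inf T.toIsTopologicalGroup hS.1.1
  · exact t2Space_antitone inf_le_right hS.1.2.1
  · rw [@nhds_inf G T.toTopologicalSpace τ 1]
    exact tendsto_inf.2 ⟨hT ⟨u, hu⟩, hS.1.2.2 u hu⟩

theorem metr (G : Type) [Group G] [τ : TopologicalSpace G] [IsTopologicalGroup G] [Countable G]
    [T2Space G] [FirstCountableTopology G] (hnd : ¬ DiscreteTopology G) :
    IsLeast {c : Cardinal | ∃ S : Set (ℕ → G), Generates S τ ∧ #S = c} boundingNumber := by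
  obtain ⟨F, hF, hF'⟩ := b_mem
  obtain ⟨y, hy, hy'⟩ := H86.SeqCard.upper (G := G)
  have hgen : Generates (y '' F) τ := by
    refine ⟨⟨inferInstance, inferInstance, ?_⟩, ?_⟩
    · rintro _ ⟨f, -, rfl⟩
      exact hy f
    · rintro s ⟨hs, -, hs'⟩
      refine continuous_id_iff_le.1 (@continuous_of_continuousAt_one G τ _ _ G _ _ s
        hs.toContinuousMul _ _ (MonoidHom.id G) ?_)
      intro V hV
      exact hy' F hF' V (@mem_of_mem_nhds G s _ _ hV) fun f hf => hs' _ ⟨f, hf, rfl⟩ hV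
  refine ⟨⟨y '' F, hgen, le_antisymm (mk_image_le.trans hF.le) (b_le G hnd _ hgen)⟩, ?_⟩
  rintro _ ⟨S, hS, rfl⟩
  exact b_le G hnd S hS

theorem result :
    (∃ (G : Type) (_ : Group G) (t : TopologicalSpace G), FURankAlephOne G t) ∧
    ((∃ (G : Type) (_ : Group G) (t : TopologicalSpace G), Countable G ∧ FURankAlephOne G t) ↔
      boundingNumber = aleph 1) := by
  refine ⟨?_, ?_, ?_⟩
  · open H86.FUGroup in
    have hlow : ∀ S : Set (ℕ → G), Generates S τ → aleph 1 ≤ #S := by
      intro S hS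
      by_contra hlt
      rw [not_le, ← succ_aleph0, Order.lt_succ_iff, le_aleph0_iff_set_countable] at hlt
      obtain ⟨s, hs, hle, hu, hn⟩ := lower S hlt hS.1.2.2
      exact hn (hS.2 ⟨hs, t2Space_antitone hle τ_t2, hu⟩)
    obtain ⟨u, hu, hu'⟩ := H86.FUGroup.exists_gen
    have hgen : Generates (range u) H86.FUGroup.τ :=
      ⟨⟨H86.FUGroup.τ_group, H86.FUGroup.τ_t2, forall_mem_range.2 hu⟩,
        fun s hs => hu' s hs.1 fun i => hs.2.2 _ (mem_range_self i)⟩
    refine ⟨H86.FUGroup.G, inferInstance, H86.FUGroup.τ, H86.FUGroup.τ_group, H86.FUGroup.τ_t2,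
      H86.FUGroup.τ_fu, ⟨_, hgen, le_antisymm (mk_range_le.trans H86.FUGroup.mk_I.le)
        (hlow _ hgen)⟩, ?_⟩
    rintro _ ⟨S, hS, rfl⟩
    exact hlow S hS
  · rintro ⟨G, _, t, _, h1, h2, h3, ⟨S, hS, hS'⟩, h4⟩
    have hnd : ¬ DiscreteTopology G := fun hd => by
      have : Generates (∅ : Set (ℕ → G)) t :=
        ⟨⟨h1, h2, fun _ h => h.elim⟩, fun s _ => (@DiscreteTopology.eq_bot G t hd).le.trans bot_le⟩
      have h5 := h4 ⟨∅, this, rfl⟩
      rw [mk_eq_zero] at h5
      exact h5.not_gt (aleph_pos 1)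
    refine le_antisymm (hS' ▸ b_le G hnd S hS) ?_
    rw [← succ_aleph0]
    exact Order.succ_le_of_lt aleph0_lt_b
  · intro h
    refine ⟨Multiplicative ℚ, inferInstance, inferInstance, inferInstanceAs (Countable ℚ),
      inferInstance, inferInstance, inferInstance, h ▸ ?_⟩
    haveI : Countable (Multiplicative ℚ) := inferInstanceAs (Countable ℚ)
    haveI : FirstCountableTopology (Multiplicative ℚ) := inferInstanceAs (FirstCountableTopology ℚ)
    refine metr _ fun hd => ?_
    haveI : DiscreteTopology ℚ := hd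
    exact not_isOpen_singleton (0 : ℚ) (isOpen_discrete _)

end Pool.Agent.Results.MP_2f4f34_gt.RankOmegaOne
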